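import Pool.Agent.Y133.Ferm

/-!
# A positive proportion of the Tate classes on every Fermat variety is algebraic

The primitive crystalline cohomology (and in the same way the `l`-adic cohomology) of the Fermat
variety of degree `m` and dimension `n` over a large finite field of characteristic `p` splits into
lines, after an extension of the coefficients, indexed by the tuples of `n + 2` nonzero residues
modulo `m` with sum zero. The Tate classes (over finite fields large enough) are spanned by the lines
of the Tate characters. A line is algebraic if its character is in the closure of the
characters of surfaces and of the standard characters of Aoki, after raising the degree.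

The theorem: for every degree `m` prime to `p` and every even dimension, at least the proportion
`2 ^ (- e (m))` of the Tate characters is of this kind, where `e (m)` depends only on the number `r` of
the prime divisors of `m`: it is `2 ^ r - 2` if `m` is odd and `2 ^ (r - 1) - 1` if `m` is even.

More generally, `α` is the set of the lines (of any dimensions) in the cohomology of a variety `X`
dominated by a product of Fermat varieties of degree `m`, `χ x` is the character of the line `x`
and `ν` the duality. Then the same is true for all even powers of `X`. The Fermat varieties are the
case of the alphabet of the nonzero residues: tuples `x : Fin (n + 2) → α`.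
-/

namespace Pool.Agent.Results.MP_60ec62_ag.FermatProportion

open Pool.Agent.H916T

/-- The character `s` of degree `m` is zero, or it becomes, after raising the degree from `m` to
`N * m` with `N` prime to `p` (residues are multiplied by `N`), a member of the smallest family which
contains the Tate characters with four entries, the standard characters and the pairs `{a, -a}`, and
which is closed under union and under removing a pair `{a, -a}`. -/
def Known (p m : ℕ) (s : Multiset (ZMod m)) : Prop :=
  s = 0 ∨ ∃ N : ℕ, 0 < N ∧ p.Coprime N ∧
    Generated (N * m)
      (fun t => SurfaceTate p (N * m) t ∨ ∃ q : ℕ, q.Prime ∧ q ∣ N * m ∧ Standard q (N * m) t)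
      (s.map fun a => ((N * a.val : ℕ) : ZMod (N * m)))

/-- `α` is a finite set of letters with characters `χ x` without zero entries, `ν` a permutation of
`α` with `χ (ν x) = - χ x`. For even `N`, the number of words of length `N` in these letters whose
character is a Tate character is at most `2 ^ e` times the number of those whose character is a Tate
character and known, `e = 2 ^ (r - 1) - 1` or `2 ^ r - 2` for even or odd `m` with `r` prime
divisors. -/
theorem result (p m : ℕ) (hp : p.Prime) (hm : 0 < m) (hpm : p.Coprime m) {α : Type} [Finite α]
    (χ : α → Multiset (ZMod m)) (ν : α ≃ α) (h0 : ∀ x, (0 : ZMod m) ∉ χ x)
    (hν : ∀ x, χ (ν x) = (χ x).map Neg.neg) (N : ℕ) (hN : Even N) :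
    Nat.card {x : Fin N → α // IsTate p m (∑ i, χ (x i))} ≤
      2 ^ (if Even m then 2 ^ (m.primeFactors.card - 1) - 1 else 2 ^ m.primeFactors.card - 2) *
        Nat.card {x : Fin N → α // IsTate p m (∑ i, χ (x i)) ∧ Known p m (∑ i, χ (x i))} :=
  Pool.Agent.Y133.proportion p m hp hm hpm χ ν h0 hν N hN

end Pool.Agent.Results.MP_60ec62_ag.FermatProportion
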