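import Pool.Agent.Y136.UB.Bound

/-!
# MP_60ec62_ag: the Tate conjecture for all products of copies of given varieties is a finite
# problem, with a universal bound for the number of factors

(Crystalline cohomology, with coefficients extended to an algebraic closure of `K` and with the
`K`-linear Frobenius endomorphisms, is one of the Weil cohomologies `W` of the theorem.)

Let `X_i` be finitely many smooth projective varieties over the field with `q = p ^ m` elements,
with total Betti number at most `r` and dimensions at most `d`, and let the slopes of Frobenius be
in `(1 / D) ℤ` (one can take `D = r!`, and `d < r`). The bound is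
`N = bound r (2 d D) = r (2 (4 r d D + 1) ^ r + 1)`.

Consider the lists of eigenvalues of the Frobenius endomorphisms on the cohomology of the `X_i`
whose product is `q ^ n` multiplied by a root of unity, where `2 n` is the sum of the degrees: they
are the eigenvalues of the products of eigenvectors which are Tate classes on the products of the
varieties `X_i`. Such a relation is indecomposable if no proper part of the list is a relation.

1. The indecomposable relations have length at most `N`.
2. The Tate conjecture and the semisimplicity of the eigenvalue `q ^ n` of Frobenius hold in all
   codimensions `n` for **all products** of copies of the `X_i` if and only if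
   they hold for the squares `X_i × X_i` in the middle codimension `dim X_i`, and, for each
   indecomposable relation, *some* product of eigenvectors with these eigenvalues is not orthogonal
   to the algebraic classes. (By (1) these are finitely many conditions; no condition is needed
   for the other Tate classes with the same eigenvalues.)
3. If on the products of at most `N` factors all Tate classes belong to a given system of
   subspaces of the cohomology which is closed under pull-backs and products (for example: they
   are algebraic; or: they are sums of products of divisor classes), then the same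
   holds on all products of copies of the `X_i`.
-/

open CategoryTheory AlgebraicGeometry

universe u v

namespace Pool.Agent.Results.MP_60ec62_ag.FiniteCriterion

open Pool.Agent.H914 Pool.Agent.W534 Pool.Agent.Y136 Pool.Agent.Y136.UB VarClass Obj
  WeilCohomology

/-- **The Tate conjecture for all products of given varieties is a finite problem.** -/
theorem result {k : Type u} [Field k] {𝒱 : VarClass k} {ops : CycleOps 𝒱}
    (W : WeilCohomology.{u, v} ops) (σ : W.K ≃+* ℂ) (p : ℕ) (hp : p.Prime) (Φ : FrobSystem W p)
    {I : Type} [Fintype I] (X : I → 𝒱.Obj) (fr : ∀ i, X i ⟶ X i) (D m : ℕ) (hD : 0 < D)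
    (hm : 0 < m) (hX : ∀ i, IsModel Φ D m (fr i)) (r d : ℕ)
    (hr : ∑ i, Module.finrank W.K (W.H (X i)) ≤ r) (hd : ∀ i, (X i).dim ≤ d) :
    (∀ (w : FreeMagma I) (L : List (I × ℕ × W.K)) (y : W.H (wordObj X w)),
      IsPrimitive ((p : W.K) ^ m) L → y ≠ 0 → IsEigProd W fr w L y →
        L.length ≤ bound r (2 * d * D)) ∧
    ((∀ (w : FreeMagma I) (n : ℕ), SemisimpleTateIn Φ (wordObj X w) n) ↔
      (∀ i, SemisimpleTateIn Φ ((X i).prod (X i)) (X i).dim) ∧
        RelationsRepresented W fr ((p : W.K) ^ m)) ∧
    ∀ A : ∀ Z : 𝒱.Obj, ℕ → Submodule W.K (W.H Z), IsClosedSystem W A →
      (∀ w : FreeMagma I, w.length ≤ bound r (2 * d * D) → TateClassesIn Φ A (wordObj X w)) →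
        ∀ w : FreeMagma I, TateClassesIn Φ A (wordObj X w) :=
  have : IsAlgClosed W.K := isAlgClosed_of_ringEquiv σ
  ⟨fun w L y hL hy h => primitive_length_le σ hp.one_lt hD hm hX hr hd w L hL y hy h,
    tate_iff hm fun i => (hX i).frobenius,
    fun _ hA hT => main σ hp.one_lt hD hm hX hr hd hA hT⟩

end Pool.Agent.Results.MP_60ec62_ag.FiniteCriterion
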