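import Pool.Agent.Y132.FG.Main

/-!
# The Tate classes on all products with powers are finitely generated

Let `X 1, …, X r` be varieties such that the Galois group acts semisimply on the cohomology of all
products of copies of the `X i` (for example, abelian varieties over finitely generated fields, by
the theorems of Tate, Zarhin, Mori and Faltings), and let `Z` be any variety. There is a number `N`
such that for all exponents `n 1, …, n r` every Tate class on `Z × X 1 ^ n 1 × ⋯ × X r ^ n r`
is a polynomial in the pull-backs, along the projections, of Tate classes on the products
`Z × X 1 ^ m 1 × ⋯ × X r ^ m r` with `m i ≤ n i` for all `i` and `m 1 + ⋯ + m r ≤ N`.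

The number `N` depends only on the representation of the Galois group on the cohomology of the `X i`
and `Z`: it has nothing to do with algebraic cycles. If the Tate classes on the finitely many products
with at most `N` factors are algebraic, then so are the Tate classes on all of them.

For the problem take the crystalline cohomology of varieties over a finite field, `Γ` the infinite
cyclic group generated by the linear Frobenius `Fr`, and `χ (Fr) = q`; Tate classes are the classes `x`
in `H ^ (2 i)` with `Fr ^ m x = q ^ (m i) x` for some `m > 0`.

Nothing is assumed about `Z`, except that the Galois group preserves the degrees of cohomology
classes. In particular it is not assumed that its action on the cohomology of `Z` is semisimple.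

The spaces of classes on the products which are generated by Tate classes over all classes of the
powers of the `X i` satisfy a Noetherian property up to projections (by Higman's lemma for the words
formed with basis vectors of the cohomology of the `X i`, and the ascending chain condition for the
subspaces of `H(Z)` formed by the leading coefficients); then the coefficients are averaged
(Hilbert's method), where the averaging operators act only on the cohomology of the products of the
`X i`.
-/

open CategoryTheory AlgebraicGeometry

universe u

namespace Pool.Agent.Results.MP_60ec62_ag.FiniteGeneration

open Pool.Agent.H914 Pool.Agent.H914.VarClass Pool.Agent.H914.WeilCohomology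
  Pool.Agent.TH125.Gal Pool.Agent.Y132.FG

/-- Let `X i` be finitely many varieties such that `Γ` acts semisimply on the cohomology of all
products of copies of them, and `Z` any variety. For some `N` all Tate classes on all products of `Z`
with powers of the `X i` are generated by the Tate classes on the subproducts of `Z` with at most `N`
of the factors `X i`. -/
theorem result {k : Type u} [Field k] {𝒱 : VarClass k} {ops : CycleOps 𝒱}
    {W : WeilCohomology.{u, 0} ops} {Γ : Type} [Group Γ] {χ : Γ →* W.Kˣ} {ι : Type} [Finite ι]
    {X : ι → GVar W Γ} {Z : GVar W Γ} (hX : ∀ i, GradedVar (X i)) (hZ : GradedVar Z)
    (hss : ∀ i L Y, IsTower X (X i) L Y → SemisimpleVar Y) :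
    ∃ N : ℕ, ∀ L Y, IsTower X Z L Y → ∀ j t, IsTateClass χ Y j t → t ∈ subprodAlg χ X Z N Y :=
  tate_generated hX hZ hss

end Pool.Agent.Results.MP_60ec62_ag.FiniteGeneration
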