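import Pool.Agent.Y134.TA.Pairs

/-!
The crystalline (and the `ℓ`-adic) Tate conjecture over finite fields for the products of a variety
with an action of a finite group and an arbitrary variety.

Let `k` be a finite field with `q` elements, `X` a smooth projective variety over `k` with an action
of a finite group `G`, and `Y` an arbitrary smooth projective variety over `k`. In `D`, `S` is the
set of points of `X` over an algebraic closure, `F` its Frobenius map, `V` and `W` are the cohomology
groups of `X` of even and of odd degree (crystalline cohomology with coefficients extended to an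
algebraically closed field `E`), with the actions `φ`, `ψ` of (the linear) Frobenius and `σ`, `τ` of
`G`; groups on which `G` acts trivially may be left out, `c m` is their contribution. We have the
Lefschetz trace formula for the compositions of the iterates of Frobenius and the elements of `G`.
`Y₀` and `Y₁` are the cohomology groups of `Y` of even and of odd degree, with Frobenius `Ψ₀`, `Ψ₁`,
whose characteristic polynomials `R₀`, `R₁` have integral coefficients (Deligne, Katz-Messing). Then
`(V ⊗ Y₀) × (W ⊗ Y₁)` is the cohomology of `X × Y` of even degree, and the vectors with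
`φ ^ n = Q ^ n`, `Q = q ^ c`, are the Tate classes of codimension `c` over the extension of `k` of
degree `n`. The invariants of `G` are the cohomology of `(X / G) × Y`.

For a subgroup `K` of `G` and a character `χ ≠ 1` of `K` of `p`-power order (`p` a prime that does
not divide `q`) let `U` be the open part of `X / K` given by the points `x` with `χ`
trivial on the stabilizer of `x`. Modulo `p` the zeta function of `U` is the quotient `P₂ / P₁` of
the characteristic polynomials on the parts of `χ` of `W` and of `V`; this gives the polynomials `H`.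

Theorem: if the products `∏ H(y T)` over the roots `y` of `R₀` (for `V`) and of `R₁` (for `W`) are
not divisible by the cyclotomic polynomials `Φ_M(Q T)` modulo `p`, `M ∣ n` prime to `p`, then all
Tate classes of `X × Y` over the extension of degree `n` are classes of `(X / G) × Y`: the Tate
conjecture for `X × Y` over this field and the one for `(X / G) × Y` are equivalent. If they are not
divisible by the squares, then the eigenvalue `Q` is semisimple on `X × Y` if and only if it is
semisimple on `(X / G) × Y`.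
-/

set_option autoImplicit false

open Polynomial TensorProduct Pool.Agent.Y134.PG Pool.Agent.Y134.CH Pool.Agent.Y134.TA

namespace Pool.Agent.Results.MP_60ec62_ag.GroupActionsTimesAll

theorem result {E : Type} [Field E] [CharZero E] [IsAlgClosed E] (D : Datum E)
    -- the pairs of a subgroup and a character of prime power order
    {ι ι' : Type} (P : ι → Pair D) (hP : Detects P) (P' : ι' → OddPair D) (hP' : DetectsOdd P')
    -- the cohomology of the other factor
    (Y : Factor E) (Q : ℕ) (hQ : Q ≠ 0) :
    -- the multiplicities of the eigenvalues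
    (∀ i, MultBound (P i).frob (P i).H Y.Ψ₀ Y.R₀ Q) ∧
    (∀ i, MultBound (P' i).frob (P' i).H Y.Ψ₁ Y.R₁ Q) ∧
    -- the Tate classes over the extension of degree `n`
    (∀ n, 1 ≤ n → (∀ i, NoCyc (P i).H Y.R₀ Q n 1) → (∀ i, NoCyc (P' i).H Y.R₁ Q n 1) →
      TateInv D Y Q n) ∧
    -- semisimplicity
    (∀ n, 1 ≤ n → (∀ i, NoCyc (P i).H Y.R₀ Q n 2) → (∀ i, NoCyc (P' i).H Y.R₁ Q n 2) →
      SemiIff D Y Q n) := by
  classical
  have hcore : ∀ i, Core (onPart D.σ D.φ D.commV (P i).K (P i).χ) (P i).p (P i).μ (P i).H := by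
    intro i
    obtain ⟨P₁, P₂, P₃, B₁, B₂, e1, e2, e3, e4, e5⟩ := (P i).zeta
    exact core (P i).prime D.inj D.equivariant D.fix_finite D.σ D.φ D.commV D.τ D.ψ
      D.commW D.c D.trace (P i).K (P i).χ (P i).order (P i).ne_one (P i).primitive
      P₁ P₂ P₃ (coeff_zero_of_prod e1) (coeff_zero_of_prod e2) B₁ B₂ e1 e2 e3 e4 (P i).H e5
  have hcore' : ∀ i,
      Core (onPart D.τ D.ψ D.commW (P' i).K (P' i).χ) (P' i).p (P' i).μ (P' i).H := by
    intro i
    obtain ⟨P₁, P₂, P₃, B₁, B₂, e1, e2, e3, e4, e5⟩ := (P' i).zeta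
    exact core_odd (P' i).prime D.inj D.equivariant D.fix_finite D.σ D.φ D.commV D.τ D.ψ
      D.commW D.c D.trace (P' i).K (P' i).χ (P' i).order (P' i).ne_one (P' i).primitive
      P₁ P₂ P₃ (coeff_zero_of_prod e1) (coeff_zero_of_prod e2) B₁ B₂ e1 e2 e3 e4 (P' i).H e5
  refine ⟨fun i M e b ζ hM hMp hζ he => sum_mult_tensor (P i).prime (P i).primitive (hcore i) Y.Ψ₀
      Y.R₀ Y.char₀ Q hM hMp hζ he b,
    fun i M e b ζ hM hMp hζ he => sum_mult_tensor (P' i).prime (P' i).primitive (hcore' i) Y.Ψ₁
      Y.R₁ Y.char₁ Q hM hMp hζ he b, fun n hn h0 h1 => ⟨?_, ?_⟩, fun n hn h0 h1 α hα => ⟨?_, ?_⟩⟩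
  · rintro ⟨x, y⟩ hv
    have hv' := (frob_pow D Y n x y).symm.trans hv
    have hv1 := congrArg (fun w : Prd D Y => w.1) hv'
    have hv2 := congrArg (fun w : Prd D Y => w.2) hv'
    exact ⟨tate_le D.σ D.commV (fun i => (P i).K) (fun i => (P i).χ) hP (fun i => (P i).p)
        (fun i => (P i).s) (fun i => (P i).μ) (fun i => (P i).prime) (fun i => (P i).primitive)
        (fun i => (P i).H) hcore Y.Ψ₀ Y.R₀ Y.char₀ hQ hn h0 x hv1,
      tate_le D.τ D.commW (fun i => (P' i).K) (fun i => (P' i).χ) hP' (fun i => (P' i).p)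
        (fun i => (P' i).s) (fun i => (P' i).μ) (fun i => (P' i).prime)
        (fun i => (P' i).primitive) (fun i => (P' i).H) hcore' Y.Ψ₁ Y.R₁ Y.char₁ hQ hn h1 y hv2⟩
  · rintro α hα ⟨x, y⟩ hv
    replace hv := (mem_gen D Y α x y).1 hv
    exact ⟨gen_le D.σ D.commV (fun i => (P i).K) (fun i => (P i).χ) hP (fun i => (P i).p)
        (fun i => (P i).s) (fun i => (P i).μ) (fun i => (P i).prime) (fun i => (P i).primitive)
        (fun i => (P i).H) hcore Y.Ψ₀ Y.R₀ Y.char₀ hQ hn h0 α hα hv.1,
      gen_le D.τ D.commW (fun i => (P' i).K) (fun i => (P' i).χ) hP' (fun i => (P' i).p)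
        (fun i => (P' i).s) (fun i => (P' i).μ) (fun i => (P' i).prime)
        (fun i => (P' i).primitive) (fun i => (P' i).H) hcore' Y.Ψ₁ Y.R₁ Y.char₁ hQ hn h1 α hα hv.2⟩
  · intro h
    rw [h]
    exact inf_le_left
  · intro h
    have e0 := (semi D.σ D.commV (fun i => (P i).K) (fun i => (P i).χ) hP (fun i => (P i).p)
        (fun i => (P i).s) (fun i => (P i).μ) (fun i => (P i).prime) (fun i => (P i).primitive)
        (fun i => (P i).H) hcore Y.Ψ₀ Y.R₀ Y.char₀ hQ hn h0 α hα).2 (by
      rintro x ⟨hx, hx2⟩
      have h3 : ((x, (0 : D.W ⊗[E] Y.Y₁)) : Prd D Y) ∈ eigSpace D Y α := by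
        refine h ⟨?_, ⟨hx2, Submodule.zero_mem _⟩⟩
        exact (mem_gen D Y α _ _).2 ⟨hx, Submodule.zero_mem _⟩
      exact ((mem_eig D Y α _ _).1 h3).1)
    have e1 := (semi D.τ D.commW (fun i => (P' i).K) (fun i => (P' i).χ) hP' (fun i => (P' i).p)
        (fun i => (P' i).s) (fun i => (P' i).μ) (fun i => (P' i).prime)
        (fun i => (P' i).primitive) (fun i => (P' i).H) hcore' Y.Ψ₁ Y.R₁ Y.char₁ hQ hn h1 α hα).2 (by
      rintro y ⟨hy, hy2⟩
      have h3 : (((0 : D.V ⊗[E] Y.Y₀), y) : Prd D Y) ∈ eigSpace D Y α := by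
        refine h ⟨?_, ⟨Submodule.zero_mem _, hy2⟩⟩
        exact (mem_gen D Y α _ _).2 ⟨Submodule.zero_mem _, hy⟩
      exact ((mem_eig D Y α _ _).1 h3).2)
    apply le_antisymm
    · rintro ⟨x, y⟩ hv
      replace hv := (mem_gen D Y α x y).1 hv
      rw [e0, e1] at hv
      exact (mem_eig D Y α x y).2 hv
    · intro v hv
      exact (Module.End.eigenspace_le_maxGenEigenspace
        (f := prodFrob D Y) (μ := α)) hv

end Pool.Agent.Results.MP_60ec62_ag.GroupActionsTimesAll
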